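import Pool.Agent.Lib.MP_4fbe7c_an.ND.Base

/-! Project ND, module POS: a nonnegative supersolution becomes positive (helper1). -/

set_option autoImplicit false

open Set MeasureTheory Filter Topology Metric

namespace Pool.Agent.Lib.MP_4fbe7c_an.ND

/-- Positivity propagates inside a ball. -/
theorem pos_step (hMov : MovStatement) {p : ℕ} {Ω : Set (Eu p)} {q : Eu p → ℝ}
    {z : ℝ → Eu p → ℝ} {g : ℝ → Eu p → Eu p} {H : ℝ → Eu p → Eu p →L[ℝ] Eu p}
    {z' : ℝ → Eu p → ℝ} {d K T : ℝ} (hΩ : Dom Ω q) (hz : Evo Ω q z g H z') (hd : 0 < d)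
    (hK : 0 ≤ K) (h0 : ∀ t, 0 ≤ t → t ≤ T → ∀ x ∈ closure Ω, 0 ≤ z t x)
    (hs : ∀ t, 0 < t → t ≤ T → ∀ x ∈ closure Ω, d * tr (H t x) - K * z t x ≤ z' t x)
    {a x y : Eu p} {r s t : ℝ} (hr : 0 < r) (ha : ball a (2 * r) ⊆ Ω) (hx : x ∈ ball a r)
    (hy : y ∈ ball a r) (hs0 : 0 ≤ s) (hst : s < t) (htT : t ≤ T) (hp : 0 < z s y) :
    0 < z t x := by
  have hsub : ball a r ⊆ Ω := (ball_subset_ball (by linarith)).trans ha
  have hyΩ : y ∈ Ω := hsub hy
  have hxΩ : x ∈ Ω := hsub hx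
  have hcont : ContinuousAt (z s) y :=
    (hz.c0 hs0).continuousAt (mem_of_superset (hΩ.isOpen.mem_nhds hyΩ) subset_closure)
  have he0 : 0 < z s y / 2 := by linarith
  have hev : ∀ᶠ w in 𝓝 y, z s y / 2 < z s w :=
    hcont.eventually_const_lt (by linarith)
  obtain ⟨R₁, hR₁, hball⟩ := Metric.eventually_nhds_iff_ball.mp hev
  have hR : 0 < min (R₁ / 2) r := lt_min (by linarith) hr
  have hts : 0 < t - s := by linarith
  refine hMov p Ω q z g H z' d K s t (min (R₁ / 2) r) (z s y / 2) y ((t - s)⁻¹ • (x - y)) hΩ hz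
    hd hK hs0 hst.le hR he0 (fun τ h1 h2 => h0 τ (hs0.trans h1) (h2.trans htT))
    (fun τ h1 h2 => hs τ (hs0.trans_lt h1) (h2.trans htT)) ?_ ?_ t hst.le le_rfl x
    (subset_closure hxΩ) ?_
  · intro τ h1 h2 w hw hwR
    exfalso
    have hc : y + (τ - s) • (t - s)⁻¹ • (x - y) ∈ ball a r := by
      rw [smul_smul]
      refine (convex_ball a r).add_smul_sub_mem hy hx ⟨?_, ?_⟩
      · exact mul_nonneg (by linarith) (inv_nonneg.mpr hts.le)
      · rw [← div_eq_mul_inv, div_le_one hts]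
        linarith
    have hwa : w ∈ ball a (2 * r) := by
      rw [mem_ball] at hc ⊢
      have h3 : dist w a ≤ dist w (y + (τ - s) • (t - s)⁻¹ • (x - y))
          + dist (y + (τ - s) • (t - s)⁻¹ • (x - y)) a := dist_triangle _ _ _
      rw [dist_eq_norm w (y + (τ - s) • (t - s)⁻¹ • (x - y))] at h3
      have h4 : min (R₁ / 2) r ≤ r := min_le_right _ _
      linarith
    have hwΩ : w ∈ Ω := ha hwa
    rw [hΩ.mem_frontier_iff] at hw
    rw [hΩ.mem_iff] at hwΩ
    linarith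
  · intro w _ hwR
    have h3 : w ∈ ball y R₁ := by
      rw [mem_ball, dist_eq_norm]
      have h4 : min (R₁ / 2) r ≤ R₁ / 2 := min_le_left _ _
      linarith
    exact (hball w h3).le
  · rw [smul_smul, mul_inv_cancel₀ hts.ne', one_smul, add_sub_cancel, sub_self, norm_zero]
    exact hR

/-- Positivity in the interior. -/
theorem pos_interior (hMov : MovStatement) {p : ℕ} {Ω : Set (Eu p)} {q : Eu p → ℝ}
    {z : ℝ → Eu p → ℝ} {g : ℝ → Eu p → Eu p} {H : ℝ → Eu p → Eu p →L[ℝ] Eu p}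
    {z' : ℝ → Eu p → ℝ} {d K T : ℝ} (hΩ : Dom Ω q) (hz : Evo Ω q z g H z') (hd : 0 < d)
    (hK : 0 ≤ K) (h0 : ∀ t, 0 ≤ t → t ≤ T → ∀ x ∈ closure Ω, 0 ≤ z t x)
    (hs : ∀ t, 0 < t → t ≤ T → ∀ x ∈ closure Ω, d * tr (H t x) - K * z t x ≤ z' t x)
    (hp : ∃ x ∈ closure Ω, 0 < z 0 x) :
    ∀ x ∈ Ω, ∀ t, 0 < t → t ≤ T → 0 < z t x := by
  -- a point of `Ω`
  obtain ⟨x₁, hx₁, hx₁p⟩ := hp
  obtain ⟨x₀, hx₀, hx₀p⟩ : ∃ x ∈ Ω, 0 < z 0 x := by
    have hc : ContinuousWithinAt (z 0) (closure Ω) x₁ := hz.c0 le_rfl x₁ hx₁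
    have hev : ∀ᶠ w in 𝓝[closure Ω] x₁, 0 < z 0 w := hc.eventually_const_lt hx₁p
    have hev2 : ∀ᶠ w in 𝓝[Ω] x₁, 0 < z 0 w := nhdsWithin_mono _ subset_closure hev
    have hne : (𝓝[Ω] x₁).NeBot := mem_closure_iff_nhdsWithin_neBot.mp hx₁
    obtain ⟨w, hw1, hw2⟩ := (hev2.and self_mem_nhdsWithin).exists
    exact ⟨w, hw2, hw1⟩
  set G : Set (Eu p) := {x | x ∈ Ω ∧ ∀ t, 0 < t → t ≤ T → 0 < z t x} with hG
  have hstep : ∀ {x : Eu p}, x ∈ Ω → ∃ r, 0 < r ∧ ball x (2 * r) ⊆ Ω := by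
    intro x hx
    obtain ⟨r, hr, hr2⟩ := Metric.isOpen_iff.mp hΩ.isOpen x hx
    refine ⟨r / 2, by linarith, ?_⟩
    rw [mul_div_cancel₀ r (two_ne_zero)]
    exact hr2
  have hmain : Ω ⊆ G := by
    refine hΩ.conn.isPreconnected.subset_of_closure_inter_subset ?_ ?_ ?_
    · rw [Metric.isOpen_iff]
      rintro y ⟨hy, hyG⟩
      obtain ⟨r, hr, hr2⟩ := hstep hy
      refine ⟨r, hr, ?_⟩
      intro x hx
      refine ⟨hr2 (ball_subset_ball (by linarith) hx), fun t ht htT => ?_⟩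
      exact pos_step hMov hΩ hz hd hK h0 hs hr hr2 hx (mem_ball_self hr) (s := t / 2)
        (by linarith) (by linarith) htT (hyG (t / 2) (by linarith) (by linarith))
    · refine ⟨x₀, hx₀, hx₀, fun t ht htT => ?_⟩
      obtain ⟨r, hr, hr2⟩ := hstep hx₀
      exact pos_step hMov hΩ hz hd hK h0 hs hr hr2 (mem_ball_self hr) (mem_ball_self hr)
        le_rfl ht htT hx₀p
    · rintro x ⟨hx1, hx2⟩
      refine ⟨hx2, fun t ht htT => ?_⟩
      obtain ⟨r, hr, hr2⟩ := hstep hx2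
      obtain ⟨y, hy1, hy2⟩ := Metric.mem_closure_iff.mp hx1 r hr
      refine pos_step hMov hΩ hz hd hK h0 hs hr hr2 (mem_ball_self hr) (y := y) ?_ (s := t / 2)
        (by linarith) (by linarith) htT (hy1.2 (t / 2) (by linarith) (by linarith))
      rw [mem_ball, dist_comm]
      exact hy2
  exact fun x hx => (hmain hx).2

/-- The geometry at a boundary point. -/
theorem pos_geometry {p : ℕ} {Ω : Set (Eu p)} {q : Eu p → ℝ} (hΩ : Dom Ω q) {x₀ : Eu p}
    (hx₀ : x₀ ∈ frontier Ω) : ∃ (ν : Eu p) (R : ℝ), 0 < R ∧ ‖ν‖ = 1 ∧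
      closedBall (x₀ - (3 * R) • ν) R ⊆ Ω ∧
      ∀ s, R / 2 ≤ s → s ≤ 3 * R → ∀ x ∈ frontier Ω, ‖x - (x₀ - s • ν)‖ ≤ R →
        0 < inner ℝ (x - (x₀ - s • ν)) (gradient q x) := by
  have hq0 : q x₀ = 0 := hΩ.mem_frontier_iff.mp hx₀
  set g₀ := gradient q x₀ with hg₀
  have hG : 0 < ‖g₀‖ := norm_pos_iff.mpr (hΩ.grad x₀ hq0)
  set G := ‖g₀‖ with hGdef
  have hκ : 0 < G / 20 := by positivity
  -- differentiability at `x₀`
  have h1 : HasFDerivAt q (innerSL ℝ g₀) x₀ := hasGradientAt_iff_fderiv.mp (hΩ.hasGradientAt x₀)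
  have h2 := h1.isLittleO.def hκ
  have h3 : ∀ᶠ x in 𝓝 x₀, ‖gradient q x - g₀‖ < G / 20 := by
    have h4 := hΩ.continuous_gradient.continuousAt (x := x₀)
    have h5 := Metric.continuousAt_iff'.mp h4 (G / 20) hκ
    filter_upwards [h5] with x hx
    rwa [dist_eq_norm] at hx
  obtain ⟨δ, hδ, hball⟩ := Metric.eventually_nhds_iff_ball.mp (h2.and h3)
  set ν : Eu p := G⁻¹ • g₀ with hν
  have hνn : ‖ν‖ = 1 := by
    rw [hν, norm_smul, norm_inv, Real.norm_of_nonneg hG.le, inv_mul_cancel₀ hG.ne']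
  have hνg : inner ℝ ν g₀ = G := by
    rw [hν, real_inner_smul_left, real_inner_self_eq_norm_sq, ← hGdef, pow_two, ← mul_assoc,
      inv_mul_cancel₀ hG.ne', one_mul]
  refine ⟨ν, δ / 5, by positivity, hνn, ?_, ?_⟩
  · intro x hx
    rw [mem_closedBall, dist_eq_norm] at hx
    set w : Eu p := x - (x₀ - (3 * (δ / 5)) • ν) with hw
    have hxx : x - x₀ = w - (3 * (δ / 5)) • ν := by
      rw [hw]
      abel
    have hn : ‖x - x₀‖ ≤ 4 * (δ / 5) := by
      rw [hxx]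
      refine (norm_sub_le _ _).trans ?_
      rw [norm_smul, hνn, Real.norm_of_nonneg (by positivity)]
      linarith
    have hxb : x ∈ ball x₀ δ := by
      rw [mem_ball, dist_eq_norm]
      linarith
    have h4 := (hball x hxb).1
    rw [hq0, sub_zero, innerSL_apply_apply, Real.norm_eq_abs] at h4
    have h5 := (abs_le.mp h4).2
    have h6 : inner ℝ g₀ (x - x₀) ≤ -(2 * (δ / 5) * G) := by
      rw [hxx, inner_sub_right, real_inner_smul_right, real_inner_comm, real_inner_comm ν g₀, hνg]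
      have h7 : inner ℝ w g₀ ≤ ‖w‖ * ‖g₀‖ := real_inner_le_norm _ _
      have h8 : ‖w‖ * ‖g₀‖ ≤ δ / 5 * G := mul_le_mul_of_nonneg_right hx hG.le
      linarith
    rw [hΩ.mem_iff]
    have h9 : G / 20 * ‖x - x₀‖ ≤ G / 20 * (4 * (δ / 5)) := mul_le_mul_of_nonneg_left hn hκ.le
    have h10 : 0 < G * δ := mul_pos hG hδ
    nlinarith
  · intro s hs1 hs2 x hx hxR
    have hqx : q x = 0 := hΩ.mem_frontier_iff.mp hx
    have hs0 : 0 < s := by linarith
    set w : Eu p := x - (x₀ - s • ν) with hw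
    have hxx : x - x₀ = w - s • ν := by
      rw [hw]
      abel
    have hn : ‖x - x₀‖ ≤ 4 * (δ / 5) := by
      rw [hxx]
      refine (norm_sub_le _ _).trans ?_
      rw [norm_smul, hνn, Real.norm_of_nonneg hs0.le]
      linarith
    have hxb : x ∈ ball x₀ δ := by
      rw [mem_ball, dist_eq_norm]
      linarith
    obtain ⟨h4, h4'⟩ := hball x hxb
    rw [hq0, hqx, sub_zero, zero_sub, norm_neg, innerSL_apply_apply, Real.norm_eq_abs] at h4
    have h5 := (abs_le.mp h4).1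
    have hweq : w = (x - x₀) + s • ν := by
      rw [hxx]
      abel
    have h6 : inner ℝ (x - x₀) (gradient q x) =
        inner ℝ g₀ (x - x₀) + inner ℝ (x - x₀) (gradient q x - g₀) := by
      rw [inner_sub_right (x - x₀) (gradient q x) g₀, real_inner_comm (x - x₀) g₀]
      ring
    have h7 : -(‖x - x₀‖ * (G / 20)) ≤ inner ℝ (x - x₀) (gradient q x - g₀) := by
      have h8 : |inner ℝ (x - x₀) (gradient q x - g₀)| ≤ ‖x - x₀‖ * ‖gradient q x - g₀‖ :=
        abs_real_inner_le_norm _ _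
      have h9 : ‖x - x₀‖ * ‖gradient q x - g₀‖ ≤ ‖x - x₀‖ * (G / 20) :=
        mul_le_mul_of_nonneg_left h4'.le (norm_nonneg _)
      have h10 := (abs_le.mp h8).1
      linarith
    have h11 : inner ℝ ν (gradient q x) = G + inner ℝ ν (gradient q x - g₀) := by
      rw [inner_sub_right, hνg]
      ring
    have h12 : -(G / 20) ≤ inner ℝ ν (gradient q x - g₀) := by
      have h8 : |inner ℝ ν (gradient q x - g₀)| ≤ ‖ν‖ * ‖gradient q x - g₀‖ :=
        abs_real_inner_le_norm _ _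
      rw [hνn, one_mul] at h8
      have h10 := (abs_le.mp h8).1
      linarith
    rw [hweq, inner_add_left, real_inner_smul_left, h6, h11]
    have h13 : G / 20 * ‖x - x₀‖ ≤ G / 20 * (4 * (δ / 5)) := mul_le_mul_of_nonneg_left hn hκ.le
    have h14 : δ / 5 / 2 * (G * (19 / 20)) ≤ s * (G + inner ℝ ν (gradient q x - g₀)) := by
      have h15 : G * (19 / 20) ≤ G + inner ℝ ν (gradient q x - g₀) := by linarith
      exact mul_le_mul hs1 h15 (by positivity) hs0.le
    have h10 : 0 < G * δ := mul_pos hG hδ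
    nlinarith

/-- POS: a nonnegative supersolution becomes positive. -/
theorem pos_st (hMov : MovStatement) : PosStatement := by
  intro p Ω q z g H z' d K T hΩ hz hd hK h0 hs hp t ht htT x hx
  have hint := pos_interior hMov hΩ hz hd hK h0 hs hp
  rcases hΩ.mem_or_frontier hx with hx1 | hx1
  · exact hint x hx1 t ht htT
  obtain ⟨ν, R, hR, hν, hball, hgeo⟩ := pos_geometry hΩ hx1
  -- positive lower bound on the starting ball
  have ht2 : 0 < t / 2 := by linarith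
  have hcpt : IsCompact (closedBall (x - (3 * R) • ν) R) := isCompact_closedBall _ _
  have hne : (closedBall (x - (3 * R) • ν) R).Nonempty := ⟨_, mem_closedBall_self hR.le⟩
  obtain ⟨w, hw, hwm⟩ := hcpt.exists_isMinOn hne
    ((hz.c0 ht2.le).mono (hball.trans subset_closure))
  have hwp : 0 < z (t / 2) w := hint w (hball hw) (t / 2) ht2 (by linarith)
  have hV : ∀ τ : ℝ, x - (3 * R) • ν + (τ - t / 2) • (5 * R / t) • ν =
      x - (3 * R - (τ - t / 2) * (5 * R / t)) • ν := by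
    intro τ
    rw [smul_smul, sub_smul (3 * R)]
    abel
  refine hMov p Ω q z g H z' d K (t / 2) t R (z (t / 2) w) (x - (3 * R) • ν) ((5 * R / t) • ν)
    hΩ hz hd hK ht2.le (by linarith) hR hwp
    (fun τ h1 h2 => h0 τ (ht2.le.trans h1) (h2.trans htT))
    (fun τ h1 h2 => hs τ (ht2.trans h1) (h2.trans htT)) ?_ ?_ t (by linarith) le_rfl x hx ?_
  · intro τ h1 h2 y hy hyR
    rw [hV] at hyR ⊢
    have h3 : (τ - t / 2) * (5 * R / t) ≤ t / 2 * (5 * R / t) :=
      mul_le_mul_of_nonneg_right (by linarith) (by positivity)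
    have h4 : t / 2 * (5 * R / t) = 5 * R / 2 := by
      field_simp
    have h5 : 0 ≤ (τ - t / 2) * (5 * R / t) := mul_nonneg (by linarith) (by positivity)
    exact hgeo _ (by linarith) (by linarith) y hy hyR
  · intro y _ hyR
    refine hwm ?_
    rw [mem_closedBall, dist_eq_norm]
    exact hyR
  · rw [hV]
    have h4 : (t - t / 2) * (5 * R / t) = 5 * R / 2 := by
      field_simp
      ring
    rw [h4, sub_sub_cancel, norm_smul, hν, mul_one, Real.norm_eq_abs, abs_of_pos (by linarith)]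
    linarith

end Pool.Agent.Lib.MP_4fbe7c_an.ND
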