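import Pool.Agent.Lib.MP_4fbe7c_an.ND.Base
import Pool.Agent.Lib.MP_4fbe7c_an.UL.Main0

/-! Project ND, module UPP: upper bound of the functional near the steady state (helper1). -/

set_option autoImplicit false

open Set MeasureTheory Filter Topology

namespace Pool.Agent.Lib.MP_4fbe7c_an.ND

open Pool.Agent.Lib.MP_4fbe7c_an.UL

/-- The integrand of the functional is continuous. -/
theorem upp_cont {p : ℕ} {Ω : Set (Eu p)} {q m : Eu p → ℝ} {a₀ b : ℝ} {θ : Eu p → ℝ}
    {θ' : Eu p → Eu p} {θ'' : Eu p → Eu p →L[ℝ] Eu p} {n c : ℕ} {ρ : ℕ → ℝ}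
    (hr : Rts n c (rr n ρ)) (hθ : Stdy Ω q m (ρ 0) θ θ' θ'') (ha : 0 < a₀)
    (hb : b ≤ 1001 / 1000 * a₀) (hab : ∀ x ∈ closure Ω, a₀ ≤ θ x ∧ θ x ≤ b)
    {f : ℕ → Eu p → ℝ}
    (hf : ∀ i, i ≤ n → ContinuousOn (f i) (closure Ω) ∧ ∀ x ∈ closure Ω, 0 < f i x) :
    ContinuousOn (fun x => (Pk (fun i => f i x) n
      - (∑ k ∈ Finset.range (n + 1), bet c (rr n ρ) b k (θ x) *
          Real.log (Pk (fun i => f i x) k))
      + ∑ j ∈ Finset.Ico c n, Af a₀ b (θ x) * (nu (rr n ρ) (j + 1) *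
          (Real.log (Pk (fun i => f i x) (j + 1))
          - Real.log (Pk (fun i => f i x) c) - 1
          + Pk (fun i => f i x) c / Pk (fun i => f i x) (j + 1))))) (closure Ω) := by
  have W := wts_st n c (rr n ρ) a₀ b hr ha hb
  have mem : ∀ {k i : ℕ}, k ≤ n → i ∈ Finset.range (k + 1) → i ≤ n := fun hk hi =>
    (Nat.lt_succ_iff.mp (Finset.mem_range.mp hi)).trans hk
  have ppos : ∀ k, k ≤ n → ∀ x ∈ closure Ω, 0 < Pk (fun i => f i x) k := by
    intro k hk x hx
    exact Finset.sum_pos (fun i hi => (hf i (mem hk hi)).2 x hx)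
      ⟨0, Finset.mem_range.mpr (Nat.succ_pos k)⟩
  have cθ : ContinuousOn θ (closure Ω) := hθ.c2.toC1.c0
  have cP : ∀ k, k ≤ n → ContinuousOn (fun x => Pk (fun i => f i x) k) (closure Ω) :=
    fun k hk => continuousOn_finsetSum _ fun i hi => (hf i (mem hk hi)).1
  have clog : ∀ k, k ≤ n → ContinuousOn (fun x => Real.log (Pk (fun i => f i x) k))
      (closure Ω) := fun k hk => (cP k hk).log fun x hx => (ppos k hk x hx).ne'
  have cβ : ∀ k, k ≤ n → ContinuousOn (fun x => bet c (rr n ρ) b k (θ x)) (closure Ω) := by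
    intro k hk x hx
    have h1 := ((W (θ x) (hab x hx).1 (hab x hx).2).2.2.2.2.2 k hk).continuousAt
    exact ContinuousAt.comp_continuousWithinAt (g := bet c (rr n ρ) b k) h1 (cθ x hx)
  have cA : ContinuousOn (fun x => Af a₀ b (θ x)) (closure Ω) := by
    intro x hx
    have h1 := (W (θ x) (hab x hx).1 (hab x hx).2).2.2.1.continuousAt
    exact ContinuousAt.comp_continuousWithinAt (g := Af a₀ b) h1 (cθ x hx)
  refine ((cP n le_rfl).sub (continuousOn_finsetSum _ fun k hk => ?_)).add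
    (continuousOn_finsetSum _ fun j hj => ?_)
  · exact (cβ k (mem le_rfl hk)).mul (clog k (mem le_rfl hk))
  · have hj' := Finset.mem_Ico.mp hj
    have hcn : c ≤ n := by omega
    have hjn : j + 1 ≤ n := by omega
    exact cA.mul (continuousOn_const.mul ((((clog (j + 1) hjn).sub (clog c hcn)).sub
      continuousOn_const).add ((cP c hcn).div (cP (j + 1) hjn)
        fun x hx => (ppos (j + 1) hjn x hx).ne')))

/-- The pointwise bound. -/
theorem upp_point {a₀ b : ℝ} {n c : ℕ} {r : ℕ → ℝ} (hr : Rts n c r) (ha : 0 < a₀)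
    (hb : b ≤ 1001 / 1000 * a₀) {θ δ : ℝ} (h1 : a₀ ≤ θ) (h2 : θ ≤ b) (hδ : 0 < δ)
    (hδ2 : δ ≤ a₀ / 2) {f : ℕ → ℝ} (hf : ∀ i, i ≤ n → 0 < f i) (hf0 : |f 0 - θ| < δ)
    (hf1 : ∀ i, 1 ≤ i → i ≤ n → f i < δ) :
    Pk f n - (∑ k ∈ Finset.range (n + 1), bet c r b k θ * Real.log (Pk f k))
      + ∑ j ∈ Finset.Ico c n, Af a₀ b θ * (nu r (j + 1) *
          (Real.log (Pk f (j + 1)) - Real.log (Pk f c) - 1 + Pk f c / Pk f (j + 1))) ≤
    θ - θ * Real.log θ + ((n : ℝ) + 3) ^ 2 * δ := by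
  obtain ⟨-, ⟨hA, hA'⟩, -, hβ, hsum, -⟩ := wts_st n c r a₀ b hr ha hb θ h1 h2
  have hθ : 0 < θ := ha.trans_le h1
  have hf0' := abs_lt.mp hf0
  have mem : ∀ {k i : ℕ}, k ≤ n → i ∈ Finset.range (k + 1) → i ≤ n := fun hk hi =>
    (Nat.lt_succ_iff.mp (Finset.mem_range.mp hi)).trans hk
  have hlow : 0 < θ - δ := by linarith
  have plow : ∀ k, k ≤ n → θ - δ ≤ Pk f k := by
    intro k hk
    have h3 : f 0 ≤ Pk f k := Finset.single_le_sum (f := f)
      (fun i hi => (hf i (mem hk hi)).le) (Finset.mem_range.mpr (Nat.succ_pos k))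
    linarith
  have ppos : ∀ k, k ≤ n → 0 < Pk f k := fun k hk => hlow.trans_le (plow k hk)
  have pmono : ∀ k l, k ≤ l → l ≤ n → Pk f k ≤ Pk f l := by
    intro k l hkl hl
    exact Finset.sum_le_sum_of_subset_of_nonneg (Finset.range_subset_range.mpr (by omega))
      (fun i hi _ => (hf i (mem hl hi)).le)
  have pup : Pk f n ≤ θ + ((n : ℝ) + 1) * δ := by
    unfold Pk
    rw [Finset.sum_range_succ']
    have h3 : ∑ k ∈ Finset.range n, f (k + 1) ≤ ∑ _k ∈ Finset.range n, δ :=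
      Finset.sum_le_sum fun i hi => (hf1 (i + 1) (by omega)
        (Nat.succ_le_iff.mpr (Finset.mem_range.mp hi))).le
    rw [Finset.sum_const, Finset.card_range, nsmul_eq_mul] at h3
    linarith
  -- `log θ - log (θ - δ) ≤ 2 δ / θ`
  have hlog1 : Real.log θ - Real.log (θ - δ) ≤ 2 * δ / θ := by
    have h3 : Real.log (θ / (θ - δ)) ≤ θ / (θ - δ) - 1 :=
      Real.log_le_sub_one_of_pos (div_pos hθ hlow)
    rw [Real.log_div hθ.ne' hlow.ne'] at h3
    have h4 : θ / (θ - δ) - 1 = δ / (θ - δ) := by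
      field_simp
      ring
    have h5 : δ / (θ - δ) ≤ 2 * δ / θ := by
      rw [div_le_div_iff₀ hlow hθ]
      nlinarith
    linarith
  have hlog2 : Real.log (θ + ((n : ℝ) + 1) * δ) - Real.log θ ≤ ((n : ℝ) + 1) * δ / θ := by
    have hpos : 0 < θ + ((n : ℝ) + 1) * δ := by positivity
    have h3 : Real.log ((θ + ((n : ℝ) + 1) * δ) / θ) ≤ (θ + ((n : ℝ) + 1) * δ) / θ - 1 :=
      Real.log_le_sub_one_of_pos (div_pos hpos hθ)
    rw [Real.log_div hpos.ne' hθ.ne'] at h3
    have h4 : (θ + ((n : ℝ) + 1) * δ) / θ - 1 = ((n : ℝ) + 1) * δ / θ := by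
      field_simp
      ring
    linarith
  have s1 : θ * Real.log θ - 2 * δ ≤
      ∑ k ∈ Finset.range (n + 1), bet c r b k θ * Real.log (Pk f k) := by
    have h3 : θ * Real.log (θ - δ) = ∑ k ∈ Finset.range (n + 1), bet c r b k θ *
        Real.log (θ - δ) := by rw [← Finset.sum_mul, hsum]
    have h4 : ∑ k ∈ Finset.range (n + 1), bet c r b k θ * Real.log (θ - δ) ≤
        ∑ k ∈ Finset.range (n + 1), bet c r b k θ * Real.log (Pk f k) :=
      Finset.sum_le_sum fun k hk => mul_le_mul_of_nonneg_left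
        (Real.log_le_log hlow (plow k (mem le_rfl hk))) (hβ k (mem le_rfl hk))
    have h5 : θ * (Real.log θ - Real.log (θ - δ)) ≤ θ * (2 * δ / θ) :=
      mul_le_mul_of_nonneg_left hlog1 hθ.le
    have h6 : θ * (2 * δ / θ) = 2 * δ := by field_simp
    linarith
  have s2 : ∑ j ∈ Finset.Ico c n, Af a₀ b θ * (nu r (j + 1) *
      (Real.log (Pk f (j + 1)) - Real.log (Pk f c) - 1 + Pk f c / Pk f (j + 1))) ≤
      (n : ℝ) * (((n : ℝ) + 3) * δ) := by
    have h3 : ∀ j ∈ Finset.Ico c n, Af a₀ b θ * (nu r (j + 1) *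
        (Real.log (Pk f (j + 1)) - Real.log (Pk f c) - 1 + Pk f c / Pk f (j + 1))) ≤
        ((n : ℝ) + 3) * δ := by
      intro j hj
      have hj' := Finset.mem_Ico.mp hj
      have hcn : c ≤ n := by omega
      have hjn : j + 1 ≤ n := by omega
      have hnu0 : 0 ≤ nu r (j + 1) := by
        unfold nu
        linarith [hr.ranti (j + 1) hjn]
      have hnu1 : nu r (j + 1) ≤ 1 := by
        unfold nu
        have h4 : r (j + 1) ≤ 1 / 3 := hr.rc' (j + 1) (by omega) (by omega)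
        have h5 : 0 ≤ r (j + 1 + 1) := by
          rcases Nat.lt_or_ge n (j + 1 + 1) with h6 | h6
          · have : j + 1 + 1 = n + 1 := by omega
            rw [this, hr.rlast]
          · exact (hr.rpos _ h6).le
        linarith
      have hp1 := ppos (j + 1) hjn
      have hpc := ppos c hcn
      have h4 : Pk f c / Pk f (j + 1) ≤ 1 := by
        rw [div_le_one hp1]
        exact pmono c (j + 1) (by omega) hjn
      have h5 : Real.log (Pk f (j + 1)) ≤ Real.log (θ + ((n : ℝ) + 1) * δ) :=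
        Real.log_le_log hp1 ((pmono (j + 1) n hjn le_rfl).trans pup)
      have h6 : Real.log (θ - δ) ≤ Real.log (Pk f c) := Real.log_le_log hlow (plow c hcn)
      have h7 : Real.log (Pk f (j + 1)) - Real.log (Pk f c) - 1 + Pk f c / Pk f (j + 1) ≤
          ((n : ℝ) + 3) * δ / θ := by
        have h8 : ((n : ℝ) + 3) * δ / θ = ((n : ℝ) + 1) * δ / θ + 2 * δ / θ := by
          field_simp
          ring
        linarith
      have h9 : 0 ≤ ((n : ℝ) + 3) * δ / θ := by positivity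
      have h10 : nu r (j + 1) *
          (Real.log (Pk f (j + 1)) - Real.log (Pk f c) - 1 + Pk f c / Pk f (j + 1)) ≤
          1 * (((n : ℝ) + 3) * δ / θ) :=
        (mul_le_mul_of_nonneg_left h7 hnu0).trans (mul_le_mul_of_nonneg_right hnu1 h9)
      have h11 : Af a₀ b θ ≤ θ := by
        rw [div_le_iff₀ hθ] at hA'
        nlinarith
      calc Af a₀ b θ * (nu r (j + 1) *
            (Real.log (Pk f (j + 1)) - Real.log (Pk f c) - 1 + Pk f c / Pk f (j + 1)))
          ≤ Af a₀ b θ * (1 * (((n : ℝ) + 3) * δ / θ)) := mul_le_mul_of_nonneg_left h10 hA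
        _ ≤ θ * (1 * (((n : ℝ) + 3) * δ / θ)) :=
            mul_le_mul_of_nonneg_right h11 (by rw [one_mul]; exact h9)
        _ = ((n : ℝ) + 3) * δ := by field_simp
    have h4 := Finset.sum_le_card_nsmul _ _ _ h3
    rw [Nat.card_Ico, nsmul_eq_mul] at h4
    refine h4.trans (mul_le_mul_of_nonneg_right ?_ (by positivity))
    exact_mod_cast Nat.sub_le n c
  nlinarith

/-- UPP: upper bound of the functional near the steady state. -/
theorem upp_st : UppStatement := by
  intro p Ω q m a₀ b θ θ' θ'' n c ρ η hΩ _ hr hθ ha hb hab hη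
  have hv := hΩ.volume_real_pos
  have hC : 0 < ((n : ℝ) + 3) ^ 2 := by positivity
  have hδ1 : 0 < η / (2 * (((n : ℝ) + 3) ^ 2 * volume.real Ω)) := by positivity
  refine ⟨min (a₀ / 2) (η / (2 * (((n : ℝ) + 3) ^ 2 * volume.real Ω))),
    lt_min (by linarith) hδ1, ?_⟩
  set δ := min (a₀ / 2) (η / (2 * (((n : ℝ) + 3) ^ 2 * volume.real Ω))) with hδdef
  have hδ : 0 < δ := lt_min (by linarith) hδ1
  intro f hf hclose
  have cθ : ContinuousOn θ (closure Ω) := hθ.c2.toC1.c0
  have c1 : ContinuousOn (fun x => θ x - θ x * Real.log (θ x)) (closure Ω) :=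
    cθ.sub (cθ.mul (cθ.log fun x hx => (hθ.pos x hx).ne'))
  have i1 : IntegrableOn (fun x => θ x - θ x * Real.log (θ x)) Ω := hΩ.integrableOn c1
  have i2 : IntegrableOn (fun _ : Eu p => ((n : ℝ) + 3) ^ 2 * δ) Ω :=
    hΩ.integrableOn continuousOn_const
  have h1 : FuT Ω n c ρ a₀ b θ f ≤
      ∫ x in Ω, ((θ x - θ x * Real.log (θ x)) + ((n : ℝ) + 3) ^ 2 * δ) := by
    unfold FuT FuN
    refine setIntegral_mono_on (hΩ.integrableOn (upp_cont hr hθ ha hb hab hf)) (i1.add i2)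
      hΩ.measurableSet ?_
    intro x hx
    have hx' := subset_closure hx
    exact upp_point hr ha hb (hab x hx').1 (hab x hx').2 hδ (min_le_left _ _)
      (fun i hi => (hf i hi).2 x hx') (hclose x hx').1 (hclose x hx').2
  rw [integral_add i1 i2, setIntegral_const, smul_eq_mul] at h1
  have h2 : volume.real Ω * (((n : ℝ) + 3) ^ 2 * δ) ≤ η / 2 := by
    have h3 : δ ≤ η / (2 * (((n : ℝ) + 3) ^ 2 * volume.real Ω)) := min_le_right _ _
    rw [le_div_iff₀ (by positivity)] at h3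
    nlinarith
  unfold FuE
  linarith

end Pool.Agent.Lib.MP_4fbe7c_an.ND
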